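import Pool.Agent.Helper70.BI.HH.StHB

/-!
# Two 2-cells which factor through a normed space and agree on the boundary are homotopic
-/

set_option autoImplicit false

open scoped Topology unitInterval
open Set

namespace Pool.Agent.Helper70.HH

theorem m_CNV : StCNV := by
  intro X _ E _ _ x y p q γ γ' Φ h h' e1 e2 e3
  have key : ∀ (r s t : I), (s = 0 ∨ s = 1 ∨ t = 0 ∨ t = 1) →
      Φ ((1 - (r : ℝ)) • h (s, t) + (r : ℝ) • h' (s, t)) = γ s t := by
    intro r s t hst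
    rw [← e3 s t hst, ← add_smul, sub_add_cancel, one_smul, ← e1]
  have src : ∀ r s : I, Φ ((1 - (r : ℝ)) • h (s, 0) + (r : ℝ) • h' (s, 0)) = x := by
    intro r s
    rw [key r s 0 (Or.inr (Or.inr (Or.inl rfl)))]
    exact (γ s).source
  have tgt : ∀ r s : I, Φ ((1 - (r : ℝ)) • h (s, 1) + (r : ℝ) • h' (s, 1)) = y := by
    intro r s
    rw [key r s 1 (Or.inr (Or.inr (Or.inr rfl)))]
    exact (γ s).target
  let g : I × I → Path x y := fun z =>
    ⟨⟨fun t => Φ ((1 - (z.1 : ℝ)) • h (z.2, t) + (z.1 : ℝ) • h' (z.2, t)), by fun_prop⟩,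
      src z.1 z.2, tgt z.1 z.2⟩
  have hg : Continuous g := by
    rw [← Path.continuous_uncurry_iff]
    show Continuous (fun u : (I × I) × I =>
      Φ ((1 - (u.1.1 : ℝ)) • h (u.1.2, u.2) + (u.1.1 : ℝ) • h' (u.1.2, u.2)))
    fun_prop
  refine ⟨⟨⟨⟨g, hg⟩, ?_, ?_⟩, ?_⟩⟩
  · intro s
    ext t
    show Φ ((1 - ((0 : I) : ℝ)) • h (s, t) + ((0 : I) : ℝ) • h' (s, t)) = γ s t
    rw [Icc.coe_zero, sub_zero, one_smul, zero_smul, add_zero, ← e1]
  · intro s
    ext t
    show Φ ((1 - ((1 : I) : ℝ)) • h (s, t) + ((1 : I) : ℝ) • h' (s, t)) = γ' s t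
    rw [Icc.coe_one, sub_self, zero_smul, zero_add, one_smul, ← e2]
  · intro r s hs
    ext t
    show Φ ((1 - (r : ℝ)) • h (s, t) + (r : ℝ) • h' (s, t)) = γ s t
    apply key r s t
    rcases hs with hs | hs
    · exact Or.inl hs
    · exact Or.inr (Or.inl hs)

end Pool.Agent.Helper70.HH
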